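import Pool.Agent.K1H61.NW.Thin

/-!
# The Hilbert-Smith conjecture with exceptional sets of codimension one

Let `n ≥ 2` and let `X` be a metric space in which the points with a neighbourhood bi-Lipschitz
equivalent to an open subset of `ℝⁿ` form a dense connected set (for example an Alexandrov space
of dimension `n`). Let a locally compact group `G` act faithfully and continuously on `X`. Suppose
that for every element `g` with small powers, with `g ^ (p ^ j) → 1` for some prime `p`, there are
closed exceptional sets `D 0, D 1, …`, such that every other regular point has a finite orbit under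
the powers of `g`, or some power of `g` is of class `W^{1,q}`, `q > n - 1`, near the point. Then `G`
is a Lie group. An exceptional set is a closed set of `(n - 1)`-dimensional Hausdorff measure zero, or
a closed set all of whose regular points are in the closure of arbitrarily small connected
subsets of the complement (for example a closed subset of a locally flat hypersurface). The sets, the
powers, the neighbourhoods, the exponents and the norms depend on `g` (and on the point) in an
arbitrary way, and nothing is assumed about `g` at the exceptional points.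

Proof (files in `Pool/Agent/K1H61/NW/`, based on `Pool/Agent/R775/HC/` and `Pool/Agent/R775/HS/` of
the starting library). First Newman's theorem for maps of finite order is proved without
regularity (the average is perturbed on finitely many spheres so that no component of the fibre is
invariant, and the theorem on invariant continua of the library applies). Let `k` generate a
procyclic group `S`, let `Z` be the set of the points near which some power of `k` is trivial and
let `B` be the set of the other regular points. By Baire's theorem some `s ≠ 1` in `S` is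
irregular, with all its powers, at all points of `B` in a small ball. So one of the exceptional sets,
or the set of the points fixed by some power `h` of `s`, contains a relatively open part of `B`. In the
first case all points there have finite orbits by Newman's theorem, which gives the second case. In
the second case let `Q` be the interior of the set of the points fixed by a power of `h` of minimal
order at some point which is not fixed. The boundary of `Q` is fixed by `h`, and a power of prime order
on `Q`, extended by the identity, contradicts Newman's theorem.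
-/

set_option autoImplicit false

namespace Pool.Agent.Results.MP_afaf30_gt.AccessibleExceptions

open MeasureTheory Set Metric Filter Topology
open scoped ENNReal

/-- The points in the domain of a bi-Lipschitz chart with values in Euclidean `n`-space. -/
def Reg (n : ℕ) (X : Type) [MetricSpace X] : Set X :=
  {x | ∃ φ : OpenPartialHomeomorph X (EuclideanSpace ℝ (Fin n)),
    (∃ L : ℝ, ∀ a ∈ φ.source, ∀ b ∈ φ.source,
      dist (φ a) (φ b) ≤ L * dist a b ∧ dist a b ≤ L * dist (φ a) (φ b)) ∧ x ∈ φ.source}

/-- Near `x` the map `f` is of class `W^{1,q}` for some `q > n - 1`, in the form of Hajlasz: in a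
neighbourhood `d(fa, fb) ≤ d(a, b) (h(a) + h(b))`, and `h^q` has finite integral for the
`n`-dimensional Hausdorff measure. -/
def SobolevNear (n : ℕ) {X : Type} [MetricSpace X] [MeasurableSpace X] [BorelSpace X]
    (f : X → X) (x : X) : Prop :=
  ∃ W ∈ 𝓝 x, ∃ q : ℝ, (n : ℝ) - 1 < q ∧ ∃ h : X → ℝ≥0∞, Measurable h ∧
    (∀ a ∈ W, ∀ b ∈ W, edist (f a) (f b) ≤ edist a b * (h a + h b)) ∧
    ∫⁻ a in W, h a ^ q ∂(Measure.hausdorffMeasure (n : ℝ)) < ∞

/-- For a compact neighbourhood `W` of `x` the sum of `diam (f (B(a, c r) ∩ W))^n` over
`r`-separated points `a` of `W` is at most `N r^{-1 + 1/N}`, for some `N` depending on `c`. -/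
def SmallImagesNear (n : ℕ) {X : Type} [MetricSpace X] (f : X → X) (x : X) : Prop :=
  ∃ W ∈ 𝓝 x, IsCompact W ∧ ∀ c : ℕ, ∃ N : ℕ, ∀ r : ℝ, 0 < r → r ≤ 1 → ∀ A : Finset X,
    (∀ a ∈ A, a ∈ W) → (∀ a ∈ A, ∀ b ∈ A, a ≠ b → r ≤ dist a b) →
    ∑ a ∈ A, Metric.diam (f '' (closedBall a (c * r) ∩ W)) ^ n ≤ N * r ^ (1 / (N : ℝ) - 1)

/-- `D` is closed, and its `(n - 1)`-dimensional Hausdorff measure is zero or all its regular points
are in the closure of arbitrarily small connected subsets of the complement. -/
def Exceptional (n : ℕ) {X : Type} [MetricSpace X] [MeasurableSpace X] [BorelSpace X]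
    (D : Set X) : Prop :=
  IsClosed D ∧ (Measure.hausdorffMeasure ((n : ℝ) - 1) D = 0 ∨
    ∀ x ∈ D ∩ Reg n X, ∀ W ∈ 𝓝 x, ∃ C : Set X, IsPreconnected C ∧ C ⊆ W \ D ∧ x ∈ closure C)

/-- The powers of `g` have compact closure contained in `V`. -/
def SmallPowers {G : Type} [Group G] [TopologicalSpace G] (V : Set G) (g : G) : Prop :=
  IsCompact (closure (Subgroup.zpowers g : Set G)) ∧ closure (Subgroup.zpowers g : Set G) ⊆ V

/-- The Hilbert-Smith conjecture for homeomorphisms which off countably many exceptional sets are
of class `W^{1,q}`, `q > n - 1`, or have finite orbits. -/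
theorem result :
    ∀ (n : ℕ), 2 ≤ n → ∀ (X : Type) [MetricSpace X] [MeasurableSpace X] [BorelSpace X],
      Dense (Reg n X) → IsPreconnected (Reg n X) →
      ∀ (G : Type) [Group G] [TopologicalSpace G] [IsTopologicalGroup G] [LocallyCompactSpace G]
        [MulAction G X] [ContinuousSMul G X] [FaithfulSMul G X], ∀ V ∈ 𝓝 (1 : G),
        (∀ g : G, SmallPowers V g →
          (∃ p : ℕ, p.Prime ∧ Tendsto (fun j : ℕ => g ^ p ^ j) atTop (𝓝 1)) →
          ∃ D : ℕ → Set X, (∀ i, Exceptional n (D i)) ∧ ∀ x ∈ Reg n X, (∀ i, x ∉ D i) →
            ∃ m : ℕ, 0 < m ∧ (g ^ m • x = x ∨ SobolevNear n (fun z : X => g ^ m • z) x ∨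
              SmallImagesNear n (fun z : X => g ^ m • z) x)) →
        ∃ (m : ℕ) (_ : ChartedSpace (EuclideanSpace ℝ (Fin m)) G),
          LieGroup (modelWithCornersSelf ℝ (EuclideanSpace ℝ (Fin m)))
            ((⊤ : ℕ∞) : WithTop ℕ∞) G := by
  intro n hn X _ _ _ hd hc G _ _ _ _ _ _ _ V hV hreg
  refine Pool.Agent.K1H61.NW.lie_thin hn hd hc hV fun g hg hp => ?_
  obtain ⟨D, hD, hDx⟩ := hreg g hg hp
  refine ⟨D, fun i => ⟨(hD i).1, ?_⟩, fun x hx hxD => ?_⟩
  · rcases (hD i).2 with h0 | h0
    · exact Pool.Agent.K1H61.NW.acc_null (by omega) (hD i).1 h0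
    · intro x hx W hW
      by_cases hxD : x ∈ D i
      · exact h0 x ⟨hxD, hx⟩ W hW
      · refine ⟨{x}, isPreconnected_singleton, ?_, subset_closure rfl⟩
        rintro _ rfl
        exact ⟨mem_of_mem_nhds hW, hxD⟩
  · obtain ⟨m, hm, h1 | h1 | h1⟩ := hDx x hx hxD
    · exact Or.inl ⟨m, hm, h1⟩
    · exact Or.inr ⟨m, hm, Or.inl h1⟩
    · exact Or.inr ⟨m, hm, Or.inr h1⟩

end Pool.Agent.Results.MP_afaf30_gt.AccessibleExceptions
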