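import Pool.Agent.K1H66.HS.PairG

/-!
# Invariant continua inside or outside an invariant subset of a fibre

Part (1). Let a compact group `H` act locally, with displacement at most `1/4`, on the ball
`B(0, 4)` of `ℝⁿ`, and let `g` be an element with `g ^ (p ^ j) → 1`, `p` a prime (a `p`-adic
transformation). Let `F` be a continuous map of the ball into `ℝⁿ` with `|F(x) - x| ≤ 1/4` which is
invariant under `g`, let `|y| < 1`, and let `B` be any closed `g`-invariant set. Then there is a
`g`-invariant continuum in the fibre of `F` over `y` which is contained in `B` or disjoint from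
`B`. No regularity is assumed. (Remarks, not used: so the fibre is not the union of two closed
invariant sets without invariant components; hence, if it contains no fixed point, its orbit space has
dimension at least two.)

Part (2). Let `X` be a Hausdorff space and `𝒜` a family of topological charts with values in `ℝⁿ`
which is closed under compositions with bi-Lipschitz maps, such that the domains of the charts
cover a dense connected set (for example all charts, if `X` is an Alexandrov space of dimension
`n`). Let a locally compact group `G` act faithfully and continuously on `X`. Then `G` is a Lie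
group, if there is a neighbourhood `V` of `1` such that for all `g` whose powers have compact
closure in `V`, with `g ^ (p ^ j) → 1` for a prime `p`, and for all charts in `𝒜` in which the
closure of the powers has displacement at most `1/4`, there is some invariant map `F` as in (1),
equal to the identity at the fixed points of `g`, such that for a dense set of `y` there is a closed
invariant set `B` (for example the points of the fibre whose orbits meet a given system of walls),
such that every invariant continuum in the fibre which is contained in `B` or disjoint from `B`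
contains a fixed point of `g`. (If `G` is a Lie group then only `g = 1` has small powers, and
`F = id` is such a map.)

The starting file `InvariantContinua` is the case `B = ∅` of (1), and in (2) the case that for a
dense set of `y` all invariant continua in the fibre contain fixed points.

Proof (files in `Pool/Agent/K1H66/HS/`). Suppose that there is no such continuum. Then `B ∩ F⁻¹(y)`
has a partition into `p` compact sets permuted cyclically by `g` (library), which gives a locally
constant code near it; the points of the fibre whose orbits leave this neighbourhood form a compact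
invariant set without invariant component, and the two cyclic partitions are joined to an
equivariant function without zeros on the fibre (`Glue`). This is impossible by a degree argument in
the spirit of Yang's theorem on the dimension of the orbit space (`Yang`): the degree of `(F, ψ)` on
the product with the plane is divisible by all powers of `p`, and it is one.
-/

set_option autoImplicit false

namespace Pool.Agent.Results.MP_afaf30_gt.ContinuaInsideOrOutside

open Set Metric Filter Topology

/-- A local action on the closed ball of radius four with displacement at most `1 / 4`. -/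
def LocalAction (n : ℕ) (H : Type) [Group H] [TopologicalSpace H]
    (T : H → EuclideanSpace ℝ (Fin n) → EuclideanSpace ℝ (Fin n)) : Prop :=
  ContinuousOn (fun q : H × EuclideanSpace ℝ (Fin n) => T q.1 q.2) (univ ×ˢ closedBall 0 4) ∧
  (∀ x ∈ closedBall 0 4, T 1 x = x) ∧
  (∀ h k, ∀ x ∈ closedBall 0 4, T k x ∈ closedBall 0 4 → T (h * k) x = T h (T k x)) ∧
  ∀ h, ∀ x ∈ closedBall 0 4, dist (T h x) x ≤ 1 / 4

/-- `F` is close to the identity and invariant under `τ`. -/
def Invariant {n : ℕ} (τ F : EuclideanSpace ℝ (Fin n) → EuclideanSpace ℝ (Fin n)) : Prop :=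
  ContinuousOn F (closedBall 0 4) ∧ (∀ v ∈ closedBall 0 4, dist (F v) v ≤ 1 / 4) ∧
  ∀ v ∈ closedBall 0 3, F (τ v) = F v

/-- `B` is closed and `τ` maps the points of `B` in the fibre of `F` over `y` into `B`. -/
def InvariantSet {n : ℕ} (τ F : EuclideanSpace ℝ (Fin n) → EuclideanSpace ℝ (Fin n))
    (y : EuclideanSpace ℝ (Fin n)) (B : Set (EuclideanSpace ℝ (Fin n))) : Prop :=
  IsClosed B ∧ ∀ v ∈ closedBall 0 3, F v = y → v ∈ B → τ v ∈ B

/-- `F` is the identity at the fixed points of `τ`, and for a dense set of points `y` of the unit
ball there is a closed invariant set `B` such that every `τ`-invariant continuum in the fibre of `F`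
over `y` which is contained in `B` or disjoint from `B` contains a fixed point. -/
def Good {n : ℕ} (τ F : EuclideanSpace ℝ (Fin n) → EuclideanSpace ℝ (Fin n)) : Prop :=
  (∀ v ∈ closedBall 0 3, τ v = v → F v = v) ∧
  ball 0 1 ⊆ closure {y | y ∈ ball 0 1 ∧ ∃ B, InvariantSet τ F y B ∧
    ∀ C, IsCompact C → IsConnected C → C ⊆ closedBall 0 3 → (∀ v ∈ C, F v = y) → τ '' C = C →
      (C ⊆ B ∨ Disjoint C B) → ∃ v ∈ C, τ v = v}

/-- The family is closed under compositions with bi-Lipschitz maps between open sets. -/
def Stable {n : ℕ} {X : Type} [TopologicalSpace X]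
    (A : Set (OpenPartialHomeomorph X (EuclideanSpace ℝ (Fin n)))) : Prop :=
  ∀ φ ∈ A, ∀ e : OpenPartialHomeomorph (EuclideanSpace ℝ (Fin n)) (EuclideanSpace ℝ (Fin n)),
    (∃ L : ℝ, ∀ a ∈ e.source, ∀ b ∈ e.source,
      dist (e a) (e b) ≤ L * dist a b ∧ dist a b ≤ L * dist (e a) (e b)) → φ.trans e ∈ A

/-- Invariant continua inside or outside an invariant set, and the criterion. -/
theorem result (n : ℕ) (hn : 1 ≤ n) :
    (∀ p : ℕ, p.Prime → ∀ (H : Type) [Group H] [TopologicalSpace H] [IsTopologicalGroup H]
      [CompactSpace H]
      (T : H → EuclideanSpace ℝ (Fin n) → EuclideanSpace ℝ (Fin n)), LocalAction n H T →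
      ∀ g : H, Tendsto (fun j : ℕ => g ^ p ^ j) atTop (𝓝 1) → ∀ F, Invariant (T g) F →
      ∀ y ∈ ball (0 : EuclideanSpace ℝ (Fin n)) 1, ∀ B, InvariantSet (T g) F y B →
      ∃ C, IsCompact C ∧ IsConnected C ∧ C ⊆ closedBall 0 (5 / 4) ∧ (∀ v ∈ C, F v = y) ∧
        T g '' C = C ∧ (C ⊆ B ∨ Disjoint C B)) ∧
    ∀ (X : Type) [TopologicalSpace X] [T2Space X]
      (A : Set (OpenPartialHomeomorph X (EuclideanSpace ℝ (Fin n)))), Stable A →
      Dense {x | ∃ φ ∈ A, x ∈ φ.source} → IsPreconnected {x | ∃ φ ∈ A, x ∈ φ.source} →
      ∀ (G : Type) [Group G] [TopologicalSpace G] [IsTopologicalGroup G] [LocallyCompactSpace G]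
        [MulAction G X] [ContinuousSMul G X] [FaithfulSMul G X], ∀ V ∈ 𝓝 (1 : G),
      (∀ (p : ℕ) (g : G), p.Prime → Tendsto (fun j : ℕ => g ^ p ^ j) atTop (𝓝 1) →
        IsCompact (closure (Subgroup.zpowers g : Set G)) →
        closure (Subgroup.zpowers g : Set G) ⊆ V → ∀ φ ∈ A, closedBall 0 4 ⊆ φ.target →
        (∀ h ∈ closure (Subgroup.zpowers g : Set G), ∀ v ∈ closedBall 0 4,
          h • φ.symm v ∈ φ.source ∧ dist (φ (h • φ.symm v)) v ≤ 1 / 4) →
        ∃ F, Invariant (fun v => φ (g • φ.symm v)) F ∧ Good (fun v => φ (g • φ.symm v)) F) →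
      ∃ (m : ℕ) (_ : ChartedSpace (EuclideanSpace ℝ (Fin m)) G),
        LieGroup (modelWithCornersSelf ℝ (EuclideanSpace ℝ (Fin m)))
          ((⊤ : ℕ∞) : WithTop ℕ∞) G := by
  refine ⟨?_, ?_⟩
  · intro p hp H _ _ _ _ T hT g hg F hF y hy B hB
    exact Pool.Agent.K1H66.HS.exists_pairG hp (T := T) ⟨hT.1, hT.2.1, hT.2.2.1, hT.2.2.2⟩ g hg
      (Subgroup.isClosed_topologicalClosure _).isCompact F hF.1 hF.2.1 hF.2.2 hy hB.1 hB.2
  · intro X _ _ A hA hd hc G _ _ _ _ _ _ _ V hV h
    refine Pool.Agent.K1H66.HS.lie_pair hn hA hd hc hV ?_
    intro p g hp hgp hcomp hgV φ hφ hs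
    rw [Subgroup.topologicalClosure_coe] at hgV hcomp
    obtain ⟨F, ⟨h1, h2, h3⟩, h4, h5⟩ := h p g hp hgp hcomp hgV φ hφ hs.1 (fun k hk v hv =>
      hs.2 k (by rw [Subgroup.topologicalClosure_coe]; exact hk) v hv)
    refine ⟨F, h1, h2, h3, h4, h5.trans (closure_mono ?_)⟩
    rintro y ⟨hy, B, hB, hC⟩
    exact ⟨hy, B, hB.1, hB.2, hC⟩

end Pool.Agent.Results.MP_afaf30_gt.ContinuaInsideOrOutside
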