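import Pool.Agent.K1H66.HS.Main

/-!
# The Hilbert-Smith conjecture for maps with small energies of exponent `n + 1`

Let `n ≥ 2` and let `X` be a metric space in which the points with a neighbourhood bi-Lipschitz
equivalent to an open subset of `ℝⁿ` form a dense connected set (for example an Alexandrov space of
dimension `n`, or a connected Lipschitz manifold). Every locally compact group which acts faithfully
and continuously on `X`, such that every element near the identity acts by a map `f` for which the
sum of `diam (f (B))^(n + 1)` over balls `B` of radius `c r` with `r`-separated centres is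
`O(r^{-1 + ε})`, is a Lie group. This is the case if `f` is locally Hölder continuous with an
exponent larger than `(n - 1) / (n + 1)`, or of Sobolev class `W^{1,q}` for some `q > n - 1`.

The theorem of the starting file `SobolevExponentAboveNMinusOne` needs the exponent `n` in place of
`n + 1` (for Hölder continuous maps: an exponent larger than `(n - 1) / n`).

Proof (files in `Pool/Agent/K1H66/HS/`; the globalisation in `Tra`, `News`, `Main` is an adaptation
of the starting files `Y909/SP/TRA`, `Y810/SP/NEWS`, `Y489/SP/Main`). Let `g` be an element of
`p`-power type, `K` the closure of its powers and `F` the average of the maps of a coset of `K`.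
The fibres of `F` need not be totally disconnected.

(1) `Yang.lean`: a fibre of an invariant map `F` close to the identity carries no continuous
function `ψ` without zeros such that `ψ (g x) = exp (2 π i / p) ψ (x)`: the common zeros of
`F - y` and `ψ` are counted by a degree which is multiplied by `p` again and again. Here the map
`(F, ψ)` is extended to the product with the plane and compared with rotations.

(2) `Glue.lean`, `Cont.lean`: choose a closed set `S` (finitely many hyperplanes parallel to the
coordinate hyperplanes) such that `x` and `g x` are in different parts of the complement of `S`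
for all `x` in the fibre. If no component of the set of the points of the fibre whose orbits meet
`S` is `g`-invariant, there is a function as in (1): on the orbits which do not meet `S` the itinerary
gives a label in `ℤ / p`, on the others there is a cyclic partition.

(3) `Null1.lean`, `Fix.lean`, `Locs.lean`: let `Q` be one of countably many invariant functions which
separate the orbits, averages of Lipschitz functions. By the energy condition the image of the ball
in `ℝ^(n + 2)` under `(x_i, F, Q)` is a null set. So for almost all `y` and almost all levels `t` the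
set of the values of `Q` on the intersection of the fibre with `x_i = t` is null, `Q` is constant
on the components in (2), and such a component is contained in an orbit, so it is a point, and this
point is fixed if the component is `g`-invariant.
-/

set_option autoImplicit false

namespace Pool.Agent.Results.MP_afaf30_gt.EnergyExponentNPlusOne

open MeasureTheory Set Metric Filter Topology
open scoped ENNReal

/-- A bi-Lipschitz chart with values in Euclidean `n`-space. -/
def BiLip {X : Type} [MetricSpace X] (n : ℕ) (U : Set X) (ψ : X → EuclideanSpace ℝ (Fin n))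
    (L : ℝ) : Prop :=
  IsOpen U ∧ IsOpen (ψ '' U) ∧
    ∀ a ∈ U, ∀ b ∈ U, dist (ψ a) (ψ b) ≤ L * dist a b ∧ dist a b ≤ L * dist (ψ a) (ψ b)

/-- The points with a neighbourhood which is bi-Lipschitz equivalent to an open subset of Euclidean
`n`-space. -/
def Reg (n : ℕ) (X : Type) [MetricSpace X] : Set X :=
  {x | ∃ (U : Set X) (ψ : X → EuclideanSpace ℝ (Fin n)) (L : ℝ), x ∈ U ∧ BiLip n U ψ L}

/-- On every compact set `C` of regular points the sum of `diam (f (B(a, c r) ∩ C))^(n + 1)` over
`r`-separated points `a` of `C` is at most `N r^{-1 + 1/N}`, for some `N` depending on `C` and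
`c`. -/
def SmallImages (n : ℕ) {X : Type} [MetricSpace X] (f : X → X) : Prop :=
  ∀ C ⊆ Reg n X, IsCompact C → ∀ c : ℕ, ∃ N : ℕ, ∀ r : ℝ, 0 < r → r ≤ 1 → ∀ A : Finset X,
    (∀ a ∈ A, a ∈ C) → (∀ a ∈ A, ∀ b ∈ A, a ≠ b → r ≤ dist a b) →
    ∑ a ∈ A, Metric.diam (f '' (closedBall a (c * r) ∩ C)) ^ (n + 1) ≤
      N * r ^ (1 / (N : ℝ) - 1)

/-- On every compact set of regular points `f` is Hölder continuous with an exponent larger than
`(n - 1) / (n + 1)`. -/
def Hoelder (n : ℕ) {X : Type} [MetricSpace X] (f : X → X) : Prop :=
  ∀ C ⊆ Reg n X, IsCompact C → ∃ α M : ℝ, ((n : ℝ) - 1) / (n + 1) < α ∧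
    ∀ a ∈ C, ∀ b ∈ C, dist (f a) (f b) ≤ M * dist a b ^ α

/-- The Sobolev class `W^{1,q}_loc` on the regular part, in the form of Hajlasz: on every compact
set of regular points there is `g` with `d(fa, fb) ≤ d(a, b) (g(a) + g(b))`, and `g^q` has finite
integral for the `n`-dimensional Hausdorff measure. -/
def Sobolev (n : ℕ) (q : ℝ) {X : Type} [MetricSpace X] [MeasurableSpace X] [BorelSpace X]
    (f : X → X) : Prop :=
  ∀ C ⊆ Reg n X, IsCompact C → ∃ g : X → ℝ≥0∞, Measurable g ∧
    (∀ a ∈ C, ∀ b ∈ C, edist (f a) (f b) ≤ edist a b * (g a + g b)) ∧
    ∫⁻ a in C, g a ^ q ∂(Measure.hausdorffMeasure (n : ℝ)) < ∞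

/-- The Hilbert-Smith conjecture for homeomorphisms with small energies of exponent `n + 1`, in
particular for Hölder continuous ones with exponent larger than `(n - 1) / (n + 1)`. -/
theorem result :
    ∀ (n : ℕ), 2 ≤ n → ∀ (X : Type) [MetricSpace X] [MeasurableSpace X] [BorelSpace X],
      Dense (Reg n X) → IsPreconnected (Reg n X) →
      ∀ (G : Type) [Group G] [TopologicalSpace G] [IsTopologicalGroup G] [LocallyCompactSpace G]
        [MulAction G X] [ContinuousSMul G X] [FaithfulSMul G X],
        (∀ᶠ g in 𝓝 (1 : G), SmallImages n (fun x : X => g • x) ∨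
          Hoelder n (fun x : X => g • x) ∨
          ∃ q : ℝ, (n : ℝ) - 1 < q ∧ Sobolev n q (fun x : X => g • x)) →
        ∃ (m : ℕ) (_ : ChartedSpace (EuclideanSpace ℝ (Fin m)) G),
          LieGroup (modelWithCornersSelf ℝ (EuclideanSpace ℝ (Fin m)))
            ((⊤ : ℕ∞) : WithTop ℕ∞) G := by
  intro n hn X _ _ _ hd hc G _ _ _ _ _ _ _ hs
  exact Pool.Agent.K1H66.HS.lie_main hn hd hc hs

end Pool.Agent.Results.MP_afaf30_gt.EnergyExponentNPlusOne
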