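import Pool.Agent.K1H66.HS.Point2

/-!
# The Hilbert-Smith conjecture for homeomorphisms which are Hölder continuous at many points

Let `n ≥ 2`, let `X` be a Hausdorff space (for example an Alexandrov space of dimension `n`) and
let `Ψ i` be countably many topological charts of `X`, homeomorphisms from open sets of `X` onto
open sets of `ℝⁿ`. Nothing is assumed about the changes of coordinates or about the rest of `X`.
Let `G` be a locally compact group acting continuously on `X` and `V` a neighbourhood of `1`.
Consider the elements `g` whose powers have compact closure contained in `V`. Suppose that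

* no such `g` other than `1` fixes all points of a nonempty open subset of a chart, and
* every such `g` for which `g ^ p ^ j → 1` for a prime `p` has a power `g ^ m`, `m > 0`, which is
  regular somewhere, that is, read in two of the charts it is (a) Hölder continuous, with an exponent
  larger than `(n - 1) / (n + 1)`, at each point of a set which is not meagre, or (b) of class
  `W^{1,q}`, for some `q > n - 1`, on a nonempty open set, or (c) its energies of exponent `n + 1` on
  a nonempty open set are small at a given sequence of scales.

Then `G` is a Lie group. In (a) nothing is assumed near the points of the set: the exponent, the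
constant and the radius depend on the point in an arbitrary way.

The theorem of the starting file `SomewhereSobolev` has (b), (c) with the exponent `n` in the
energies, which covers maps which are Hölder continuous on an open set with an exponent
`> (n - 1) / n`, for all elements with small powers.

Proof (files in `Pool/Agent/K1H66/HS/`, `Fix2`, `Ener2`, `Chart2`, `Reg2`, `Coset2`, `Some2`,
`Point2`). Baire's theorem turns (a) into a uniform estimate on a ball, and a second application of
Baire's theorem gives a coset `s K` of an open subgroup of the closure of the powers whose elements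
have uniformly bounded energies from a ball of one chart to another chart `χ`. In the topological
chart `χ ∘ s` the average `F` of `K` is close to the identity. By the theorem on invariant components
(`Yang`, `Glue`, `Cont`: degrees of pairs of an invariant map and an equivariant function), a fibre
of `F` contains a `K`-invariant component of the set of the points whose orbits meet the walls, here
the images of hyperplanes of the first chart. The averages of Lipschitz functions of the first chart
are invariant functions which separate the orbits, and by the energy condition the set of their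
values on such a slice of the fibre is null for almost all fibres and levels, so they are constant on
the component. Hence the component is a fixed point, and `K` acts trivially on a ball.
-/

set_option autoImplicit false

namespace Pool.Agent.Results.MP_afaf30_gt.SomewhereHoelder

open MeasureTheory Set Metric Filter Topology
open scoped ENNReal

/-- The map `f` is Hölder continuous at the point `v`, with an exponent larger than
`(n - 1) / (n + 1)`. -/
def HoelderAt {n : ℕ} (f : EuclideanSpace ℝ (Fin n) → EuclideanSpace ℝ (Fin n))
    (v : EuclideanSpace ℝ (Fin n)) : Prop :=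
  ∃ α M δ : ℝ, ((n : ℝ) - 1) / (n + 1) < α ∧ 0 < δ ∧
    ∀ w, dist w v < δ → dist (f w) (f v) ≤ M * dist w v ^ α

/-- The map `f` is of Sobolev class `W^{1,q}` on `O`, in the form of Hajlasz. -/
def Sobolev {n : ℕ} (q : ℝ) (O : Set (EuclideanSpace ℝ (Fin n)))
    (f : EuclideanSpace ℝ (Fin n) → EuclideanSpace ℝ (Fin n)) : Prop :=
  ∃ h : EuclideanSpace ℝ (Fin n) → ℝ≥0∞, Measurable h ∧
    (∀ v ∈ O, ∀ w ∈ O, edist (f v) (f w) ≤ edist v w * (h v + h w)) ∧
    ∫⁻ v in O, h v ^ q < ∞

/-- The energy of exponent `n + 1` of `f` on `O` at the scale `r` is at most `b`: the sum of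
`|f(x_a) - f(y_a)|^(n + 1)` over an `r`-separated set of points `a` of `O` is at most `b`, for all
points `x_a`, `y_a` of `O` at distance at most `r` from `a`. -/
def Energy {n : ℕ} (O : Set (EuclideanSpace ℝ (Fin n))) (r b : ℝ)
    (f : EuclideanSpace ℝ (Fin n) → EuclideanSpace ℝ (Fin n)) : Prop :=
  ∀ (A : Finset (EuclideanSpace ℝ (Fin n)))
    (x y : EuclideanSpace ℝ (Fin n) → EuclideanSpace ℝ (Fin n)),
    (∀ a ∈ A, a ∈ O ∧ x a ∈ O ∧ y a ∈ O ∧ dist (x a) a ≤ r ∧ dist (y a) a ≤ r) →
    (∀ a ∈ A, ∀ a' ∈ A, a ≠ a' → r ≤ dist a a') → ∑ a ∈ A, dist (f (x a)) (f (y a)) ^ (n + 1) ≤ b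

/-- The powers of `g` have compact closure contained in `V`. -/
def SmallPowers {G : Type} [Group G] [TopologicalSpace G] (V : Set G) (g : G) : Prop :=
  IsCompact (closure (Subgroup.zpowers g : Set G)) ∧ closure (Subgroup.zpowers g : Set G) ⊆ V

/-- The map `g`, read in two of the charts `Ψ i`, is regular somewhere: it is Hölder continuous with
an exponent larger than `(n - 1) / (n + 1)` at each point of a set which is not meagre, or on a
nonempty open set it is of class `W^{1,q}` for some `q > n - 1`, or its energies at the scales `r k`
are at most `b k` for all large `k`. -/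
def RegularSomewhere {n : ℕ} {X : Type} [TopologicalSpace X]
    (Ψ : ℕ → OpenPartialHomeomorph X (EuclideanSpace ℝ (Fin n))) (r b : ℕ → ℝ) (g : X → X) : Prop :=
  ∃ i j : ℕ,
    ¬ IsMeagre {v | v ∈ (Ψ i).target ∧ g ((Ψ i).symm v) ∈ (Ψ j).source ∧
      HoelderAt (fun w => Ψ j (g ((Ψ i).symm w))) v} ∨
    ∃ W : Set X, IsOpen W ∧ W.Nonempty ∧ W ⊆ (Ψ i).source ∧ (∀ x ∈ W, g x ∈ (Ψ j).source) ∧
      ((∃ q : ℝ, (n : ℝ) - 1 < q ∧ Sobolev q (Ψ i '' W) (fun v => Ψ j (g ((Ψ i).symm v)))) ∨
        ∃ m : ℕ, ∀ k, m ≤ k →
          Energy (Ψ i '' W) (r k) (b k) (fun v => Ψ j (g ((Ψ i).symm v))))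

/-- The Hilbert-Smith conjecture for locally effective actions by homeomorphisms with somewhere
regular powers. -/
theorem result :
    ∀ (n : ℕ), 2 ≤ n → ∀ (X : Type) [TopologicalSpace X] [T2Space X]
      (Ψ : ℕ → OpenPartialHomeomorph X (EuclideanSpace ℝ (Fin n)))
      (G : Type) [Group G] [TopologicalSpace G] [IsTopologicalGroup G] [LocallyCompactSpace G]
      [T2Space G] [MulAction G X] [ContinuousSMul G X], ∀ V ∈ 𝓝 (1 : G),
      (∀ g : G, SmallPowers V g → ∀ (i : ℕ) (W : Set X), IsOpen W → W.Nonempty →
        W ⊆ (Ψ i).source → (∀ x ∈ W, g • x = x) → g = 1) →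
      ∀ r b : ℕ → ℝ, (∀ k, 0 < r k) → Tendsto (fun k => r k * b k) atTop (𝓝 0) →
      (∀ g : G, SmallPowers V g →
        (∃ p : ℕ, p.Prime ∧ Tendsto (fun j : ℕ => g ^ p ^ j) atTop (𝓝 1)) →
        ∃ m : ℕ, 0 < m ∧ RegularSomewhere Ψ r b (fun x : X => g ^ m • x)) →
      ∃ (m : ℕ) (_ : ChartedSpace (EuclideanSpace ℝ (Fin m)) G),
        LieGroup (modelWithCornersSelf ℝ (EuclideanSpace ℝ (Fin m)))
          ((⊤ : ℕ∞) : WithTop ℕ∞) G := by
  intro n hn X _ _ Ψ G _ _ _ _ _ _ _ V hV hLE r b hr hrb hreg
  exact Pool.Agent.K1H66.HS.lie_somewhere2 hn Ψ hV hLE hr hrb hreg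

end Pool.Agent.Results.MP_afaf30_gt.SomewhereHoelder
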